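import Pool.Agent.H98.SLN.Targets

set_option autoImplicit false

open MeasureTheory ProbabilityTheory Filter Topology
open scoped ENNReal
open Pool.Agent.H95 Pool.Agent.H95.Cop
open Pool.Agent.H55.CG (pz VV Mo)
open Pool.Agent.H98.CE (pc WB HK OBJ)
open Pool.Agent.H96.Cop (ex pk Wn chargeLaw)
open Pool.Agent.H99.CE (NX)
open Pool.Agent.H98.SLN

namespace Pool.Agent.H59.SLN

lemma tendsto_ceil_inv_sq :
    Tendsto (fun lam : ℝ => ⌈1 / lam ^ 2⌉₊) (𝓝[>] (0 : ℝ)) atTop := by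
  have h1 : Tendsto (fun lam : ℝ => 1 / lam ^ 2) (𝓝[>] (0 : ℝ)) atTop := by
    have h2 : Tendsto (fun lam : ℝ => lam ^ 2) (𝓝[>] (0 : ℝ)) (𝓝[>] (0 : ℝ)) := by
      rw [tendsto_nhdsWithin_iff]
      refine ⟨?_, ?_⟩
      · have : Tendsto (fun lam : ℝ => lam ^ 2) (𝓝 (0 : ℝ)) (𝓝 (0 ^ 2)) :=
          (continuous_pow 2).tendsto 0
        rw [zero_pow two_ne_zero] at this
        exact this.mono_left nhdsWithin_le_nhds
      · filter_upwards [self_mem_nhdsWithin] with lam hlam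
        have hlam1 : 0 < lam := hlam
        exact pow_pos hlam1 2
    simp_rw [div_eq_mul_inv]
    exact (tendsto_inv_nhdsGT_zero.comp h2).const_mul_atTop one_pos
  exact tendsto_nat_ceil_atTop.comp h1

lemma exp_map (μ : Measure ℝ) [IsProbabilityMeasure μ]
    (hexp : ∀ t : ℝ, Integrable (fun z => Real.exp (t * z)) μ) (lam h : ℝ) (t : ℝ) :
    Integrable (fun z => Real.exp (t * z)) (μ.map (fun z => -2 * lam * (z + h))) := by
  rw [integrable_map_measure (by fun_prop) (by fun_prop)]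
  have h1 := (hexp (t * (-2 * lam))).mul_const (Real.exp (t * (-2 * lam * h)))
  refine h1.congr (Filter.Eventually.of_forall fun z => ?_)
  simp only [Function.comp_apply]
  rw [← Real.exp_add]
  congr 1
  ring

theorem pf_LWA (hKRA : T_KRA) (hMCM : T_MCM) (hLFN : T_LFN) (hHKR : T_HKR) (hTLQ : T_TLQ)
    (hEND : Pool.Agent.H98.CE.T_END) : T_LWA := by
  obtain ⟨K0, δ2, hK01, hδ2, hfn⟩ := hLFN
  obtain ⟨δ3, hδ3, hmcm⟩ := hMCM K0 hK01
  have hK0pos : 0 < K0 := by linarith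
  have hm : 0 < min (min δ2 δ3) (1 / 2 ^ 20) := lt_min (lt_min hδ2 hδ3) (by norm_num)
  refine ⟨1 / (300 * K0), 1 - min (min δ2 δ3) (1 / 2 ^ 20), by positivity, by linarith, ?_⟩
  intro α hα0 hα1 K hK0 cK hcK hK μ hμ hexp hmean hvar
  have hδ : 0 < 1 - α := by linarith
  have hδm : 1 - α < min (min δ2 δ3) (1 / 2 ^ 20) := by linarith
  have hδδ2 : 1 - α < δ2 := hδm.trans_le ((min_le_left _ _).trans (min_le_left _ _))
  have hδδ3 : 1 - α < δ3 := hδm.trans_le ((min_le_left _ _).trans (min_le_right _ _))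
  have hδ20 : 1 - α < 1 / 2 ^ 20 := hδm.trans_le (min_le_right _ _)
  have h220 : (1 : ℝ) / 2 ^ 20 < 1 / 2 := by norm_num
  have hαpos : 0 < α := by linarith
  obtain ⟨lam0, hlam0, hmc⟩ := hmcm μ hexp hmean hvar
  have hRG := hKRA α (by linarith) hα1 K hK0 cK hcK hK
  have hev := tendsto_ceil_inv_sq.eventually hRG
  have hsm1 : ∀ᶠ lam in 𝓝[>] (0 : ℝ), lam < lam0 :=
    mem_nhdsWithin_of_mem_nhds (Iio_mem_nhds hlam0)
  have hsm2 : ∀ᶠ lam in 𝓝[>] (0 : ℝ), lam < (1 - α) ^ 2 :=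
    mem_nhdsWithin_of_mem_nhds (Iio_mem_nhds (pow_pos hδ 2))
  filter_upwards [hev, hsm1, hsm2, self_mem_nhdsWithin] with lam hrg hl1 hl2 hpos
  have hlampos : 0 < lam := hpos
  set h : ℝ := (3 / 4 + (1 - α) ^ (1 / 4 : ℝ) / (300 * K0)) * lam with hh
  have hpow : 0 ≤ (1 - α) ^ (1 / 4 : ℝ) := Real.rpow_nonneg hδ.le _
  have hh0 : 0 ≤ h := by positivity
  have hMC := hmc lam (1 - α) α hlampos hl1 hδ hδδ3 (by linarith) hα1.le hl2.le
  rw [← hh] at hMC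
  obtain ⟨n, s', hn, hs', hlt⟩ := hfn K α cK (1 - α) ⌈1 / lam ^ 2⌉₊ _ _ hδδ2 hrg hMC
  obtain ⟨hHK, hkap, -⟩ := hHKR K α cK (1 - α) _ _ hrg
  obtain ⟨hℓ1, hqℓ, -, -, -⟩ := hTLQ K α cK (1 - α) _ _ hrg
  obtain ⟨f, hf0, hf⟩ := hEND α hαpos K hK0 cK hcK hK μ hexp (cK / 2) _ (by positivity) hrg.lo
    ⌈1 / lam ^ 2⌉₊ n ((1 - α) / 64) lam h s' hℓ1 hqℓ (by positivity) (by linarith) hHK hkap hn hs'
    hlt
  have hsup : h ≤ criticalCurve K μ lam :=
    le_csSup (localized_bddAbove μ K hexp lam hlampos) ⟨hh0, f, hf0, hf⟩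
  rw [le_div_iff₀ hlampos]
  refine le_trans (le_of_eq ?_) hsup
  rw [hh]
  ring

end Pool.Agent.H59.SLN
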