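import Pool.Agent.H98.SLN.Targets

set_option autoImplicit false

open MeasureTheory ProbabilityTheory Filter Topology
open scoped ENNReal
open Pool.Agent.H95 Pool.Agent.H95.Cop
open Pool.Agent.H55.CG (pz VV Mo)
open Pool.Agent.H98.CE (pc WB HK OBJ)
open Pool.Agent.H96.Cop (ex pk Wn chargeLaw)
open Pool.Agent.H99.CE (NX)
open Pool.Agent.H98.SLN

namespace Pool.Agent.H59.SLN

lemma W_mono (K : PMF ℕ) (N : ℕ) (x x' : ℕ → ℝ) (h : ∀ i, x i ≤ x' i) : W K N x ≤ W K N x' := by
  rw [W_def, W_def]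
  apply integral_mono (integrable_exp_expo K N x) (integrable_exp_expo K N x')
  intro p
  apply Real.exp_le_exp.mpr
  unfold expo
  apply Finset.sum_le_sum
  intro i _
  exact mul_le_mul_of_nonneg_left (h i) (Delta_nonneg p (i + 1))

theorem pf_MOH : T_MOH := by
  intro K μ _ lam h h' θ hlam hh hθ N
  rw [← Pool.Agent.H96.Cop.map_ch μ lam h', ← Pool.Agent.H96.Cop.map_ch μ lam h,
    lintegral_map ((Pool.Agent.H96.Cop.measurable_Wn K N).pow_const θ)
      (Pool.Agent.H96.Cop.measurable_ch lam h'),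
    lintegral_map ((Pool.Agent.H96.Cop.measurable_Wn K N).pow_const θ)
      (Pool.Agent.H96.Cop.measurable_ch lam h)]
  apply lintegral_mono
  intro w
  apply ENNReal.rpow_le_rpow _ hθ
  unfold Wn
  apply ENNReal.ofReal_le_ofReal
  apply W_mono
  intro i
  unfold ch
  nlinarith

end Pool.Agent.H59.SLN
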