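import Pool.Agent.H98.SLN.Targets

set_option autoImplicit false

open MeasureTheory ProbabilityTheory Filter Topology
open scoped ENNReal
open Pool.Agent.H95 Pool.Agent.H95.Cop
open Pool.Agent.H55.CG (pz VV Mo)
open Pool.Agent.H98.CE (pc WB HK OBJ)
open Pool.Agent.H96.Cop (ex pk Wn chargeLaw)
open Pool.Agent.H99.CE (NX)
open Pool.Agent.H98.SLN

namespace Pool.Agent.H59.SLN

lemma kq_nonneg (K : PMF ℕ) (q n : ℕ) : 0 ≤ kq K q n := by
  unfold kq; split_ifs
  · exact kk_nonneg K n
  · exact le_refl _

lemma kq_le (K : PMF ℕ) (q n : ℕ) : kq K q n ≤ kk K n := by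
  unfold kq; split_ifs
  · exact le_refl _
  · exact kk_nonneg K n

lemma uu_mono_kernel (k k' : ℕ → ℝ) (h0 : ∀ n, 0 ≤ k n) (h : ∀ n, k n ≤ k' n) (n : ℕ) :
    uu k n ≤ uu k' n := by
  induction n using Nat.strong_induction_on with
  | _ n ih =>
    cases n with
    | zero => rw [uu_zero, uu_zero]
    | succ n =>
      rw [uu_succ, uu_succ]
      apply Finset.sum_le_sum
      intro j hj
      exact mul_le_mul (h _) (ih _ (by omega)) (uu_nonneg k h0 _) ((h0 _).trans (h _))

lemma uq_zero (K : PMF ℕ) (q : ℕ) : uq K q 0 = 1 := uu_zero _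

lemma uq_succ (K : PMF ℕ) (q n : ℕ) :
    uq K q (n + 1) = ∑ j : Fin (n + 1), kq K q (j + 1) * uq K q (n - j) := by
  unfold uq
  rw [uu_succ, Finset.sum_range]

lemma uq_nonneg (K : PMF ℕ) (q n : ℕ) : 0 ≤ uq K q n := uu_nonneg _ (kq_nonneg K q) n

lemma Sq_zero (K : PMF ℕ) (q : ℕ) (x : ℕ → ℝ) (y : ℕ) : Sq K q x 0 y = 0 := by
  rw [Sq]

lemma Sq_succ (K : PMF ℕ) (q : ℕ) (x : ℕ → ℝ) (n y : ℕ) :
    Sq K q x (n + 1) y = ∑ j : Fin (n + 1), kq K q (j + 1) *
      (lc (H x y (y + (j + 1))) * uq K q (n - j) + Sq K q x (n - j) (y + (j + 1))) := by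
  rw [Sq]

lemma mS_zero (K : PMF ℕ) (q : ℕ) (ν : Measure ℝ) : mS K q ν 0 = 0 := by
  rw [mS]

lemma mS_succ (K : PMF ℕ) (q : ℕ) (ν : Measure ℝ) (n : ℕ) :
    mS K q ν (n + 1) = ∑ j : Fin (n + 1), kq K q (j + 1) *
      ((∫ x : ℕ → ℝ, lc (H x 0 (j + 1)) ∂(iid ν)) * uq K q (n - j) + mS K q ν (n - j)) := by
  rw [mS]

lemma uq_term_zero (K : PMF ℕ) (q n : ℕ) (h : uq K q (n + 1) = 0) (j : Fin (n + 1)) :
    kq K q (j + 1) = 0 ∨ uq K q (n - j) = 0 := by
  rw [uq_succ] at h
  have h1 := (Finset.sum_eq_zero_iff_of_nonneg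
    (fun j _ => mul_nonneg (kq_nonneg K q _) (uq_nonneg K q _))).1 h j (Finset.mem_univ _)
  exact mul_eq_zero.1 h1

lemma measurable_lcH (a b : ℕ) : Measurable (fun x : ℕ → ℝ => lc (H x a b)) := by
  unfold lc H
  have h : Measurable (fun x : ℕ → ℝ => ∑ i ∈ Finset.Ico a b, x i) :=
    Finset.measurable_sum _ (fun i _ => measurable_pi_apply i)
  have h2 : Measurable Real.cosh := Real.continuous_cosh.measurable
  exact Real.measurable_log.comp (h2.comp (h.div_const 2))

lemma H_dep {a b m : ℕ} (hb : b ≤ m) {x x' : ℕ → ℝ} (h : ∀ i < m, x i = x' i) :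
    H x a b = H x' a b := by
  unfold H
  apply Finset.sum_congr rfl
  intro i hi
  rw [Finset.mem_Ico] at hi
  exact h i (by omega)

theorem pf_UQB : T_UQB := by
  intro K q
  refine ⟨fun n => ⟨uq_nonneg K q n, uu_mono_kernel _ _ (kq_nonneg K q) (kq_le K q) n⟩,
    ?_, ?_, ?_, ?_⟩
  · intro n
    induction n using Nat.strong_induction_on with
    | _ n ih =>
      intro x y h
      cases n with
      | zero => exact Sq_zero K q x y
      | succ n =>
        rw [Sq_succ]
        apply Finset.sum_eq_zero
        intro j _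
        rcases uq_term_zero K q n h j with h1 | h1
        · rw [h1, zero_mul]
        · rw [h1, mul_zero, zero_add, ih (n - j) (by omega) x _ h1, mul_zero]
  · intro ν n
    induction n using Nat.strong_induction_on with
    | _ n ih =>
      intro h
      cases n with
      | zero => exact mS_zero K q ν
      | succ n =>
        rw [mS_succ]
        apply Finset.sum_eq_zero
        intro j _
        rcases uq_term_zero K q n h j with h1 | h1
        · rw [h1, zero_mul]
        · rw [h1, mul_zero, zero_add, ih (n - j) (by omega) h1, mul_zero]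
  · intro n
    induction n using Nat.strong_induction_on with
    | _ n ih =>
      intro y
      cases n with
      | zero =>
        have h0 : (fun x : ℕ → ℝ => Sq K q x 0 y) = fun _ => 0 := by
          funext x; exact Sq_zero K q x y
        rw [h0]
        exact ⟨measurable_const, fun _ _ _ => rfl⟩
      | succ n =>
        have h0 : (fun x : ℕ → ℝ => Sq K q x (n + 1) y) = fun x => ∑ j : Fin (n + 1),
            kq K q (j + 1) * (lc (H x y (y + (j + 1))) * uq K q (n - j) +
              Sq K q x (n - j) (y + (j + 1))) := by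
          funext x; exact Sq_succ K q x n y
        rw [h0]
        constructor
        · apply Finset.measurable_sum
          intro j _
          exact (((measurable_lcH _ _).mul_const _).add
            (ih (n - j) (by omega) (y + (j + 1))).1).const_mul _
        · intro x x' hx
          apply Finset.sum_congr rfl
          intro j _
          have hj := j.2
          have e1 : H x y (y + (j + 1)) = H x' y (y + (j + 1)) :=
            H_dep (m := y + (n + 1)) (by omega) hx
          have e2 : Sq K q x (n - j) (y + (j + 1)) = Sq K q x' (n - j) (y + (j + 1)) :=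
            (ih (n - j) (by omega) (y + (j + 1))).2 x x' (fun i hi => hx i (by omega))
          rw [e1, e2]
  · intro n
    induction n using Nat.strong_induction_on with
    | _ n ih =>
      intro x y t
      cases n with
      | zero => rw [Sq_zero, Sq_zero]
      | succ n =>
        rw [Sq_succ, Sq_succ]
        apply Finset.sum_congr rfl
        intro j _
        have e : y + (j + 1) + t = y + t + (j + 1) := by omega
        rw [H_shift, ih (n - j) (by omega), e]

end Pool.Agent.H59.SLN
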